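import Pool.Agent.helper67DD.Desc
import Pool.Agent.helper67DE.YamB4

/-!
MP_1ef125_al.  Over every field `k` the finite dominant dimensions of finite-dimensional
`k`-algebras with exactly two simple modules are unbounded.
-/

namespace Pool.Agent.Results.MP_1ef125_al.EveryField

/-- The dominant dimension of `A` is at least `m`: there is a coresolution
`0 → A → I 0 → I 1 → ⋯` of left modules, exact up to the place `m - 1`, whose terms
`I 0, …, I (m - 1)` are projective and injective. -/
def DomDimAtLeast (A : Type) [Ring A] (m : ℕ) : Prop :=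
  ∃ (I : ℕ → ModuleCat.{0} A) (ε : A →ₗ[A] I 0) (d : ∀ i, I i →ₗ[A] I (i + 1)),
    Function.Injective ε ∧
    (1 < m → Function.Exact ε (d 0)) ∧
    (∀ i, i + 2 < m → Function.Exact (d i) (d (i + 1))) ∧
    ∀ j, j < m → Module.Projective A (I j) ∧ Module.Injective A (I j)

theorem result :
    ∀ (k : Type) [Field k], ∀ N : ℕ,
      ∃ (A : Type) (_ : Ring A) (_ : Algebra k A) (_ : FiniteDimensional k A)
        (S : Fin 2 → ModuleCat.{0} A),
        (∀ i, IsSimpleModule A (S i)) ∧
        (∀ i j, Nonempty (S i ≃ₗ[A] S j) → i = j) ∧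
        (∀ M : ModuleCat.{0} A, IsSimpleModule A M → ∃ i, Nonempty (M ≃ₗ[A] S i)) ∧
        DomDimAtLeast A N ∧ ∃ m, ¬ DomDimAtLeast A m := by
  intro k _ N
  by_cases h2 : (2 : k) = 0
  · have hc : CharP k 2 := CharTwo.of_one_ne_zero_of_two_eq_zero one_ne_zero h2
    obtain ⟨s, hs, B, _, _, _, _, ⟨Y⟩⟩ := helper67DE.final k N
    obtain ⟨A, i1, i2, i3, S, h1, h2, h3, h4, h5⟩ := Y.main
    refine ⟨A, i1, i2, i3, S, h1, h2, h3, h4 N (by omega), ?_⟩
    by_contra hcon
    push Not at hcon
    exact h5 hcon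
  · let D := (Pool.Agent.helper67DD.qdata k h2 N).toData
    have := D.finA
    refine ⟨D.A, inferInstance, inferInstance, this, D.S, D.S_simple, D.S_inj, D.S_all,
      D.PP_pos N (by omega), ?_⟩
    by_contra hcon
    push Not at hcon
    exact D.PP_neg hcon

end Pool.Agent.Results.MP_1ef125_al.EveryField
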